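import Mathlib
import Pool.Agent.Helper83.FC.Core

set_option autoImplicit false

namespace Pool.Agent.Results.MP_efd802_co.FewConflicts

/-- Let `G` be a finite bipartite graph with sides `A = {v | side v = true}` and
`B = {v | side v = false}` and let the injective function `rk` order its vertices so that every
vertex `a` of `A` is, for at most two vertices `b` of `B`, a neighbour of `b` that is neither the
first nor the last neighbour of `b`. (Every planar bipartite graph has such an order.)

Let `R` be a system of matchings between the colours of vertices (`R u v x y`: colour `x` at `u` is in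
conflict with colour `y` at `v`; for `R u v x y := x = y` we are in the setting of list colourings)
and let `L` be an assignment of lists of three colours such that for every `b` of `B`
* at most three neighbours `a` of `b` have a colour in conflict with a colour of `L b`;
* no colour of `L b` has conflicts in the lists of three neighbours of `b`, and at most one colour of
  `L b` has conflicts in the lists of two neighbours.

Then there are three colourings from the lists without conflicts that are pairwise different at every
vertex; in particular there is a fractional packing: a probability distribution on the colourings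
without conflicts whose marginals are all uniform, equal to `1/3`. -/
theorem result :
    ∀ (n : ℕ) (G : SimpleGraph (Fin n)) (side : Fin n → Bool) (rk : Fin n → ℕ),
      (∀ u v, G.Adj u v → side u ≠ side v) → Function.Injective rk →
      (∀ a, side a = true →
        {b | G.Adj a b ∧ (∃ u, G.Adj b u ∧ rk u < rk a) ∧ ∃ u, G.Adj b u ∧ rk a < rk u}.ncard ≤ 2) →
      ∀ R : Fin n → Fin n → ℕ → ℕ → Prop, (∀ u v x y, R u v x y → R v u y x) →
        (∀ u v x y y', R u v x y → R u v x y' → y = y') →
      ∀ L : Fin n → Finset ℕ, (∀ v, (L v).card = 3) →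
        (∀ b, side b = false →
          {a | G.Adj b a ∧ ∃ x ∈ L b, ∃ y ∈ L a, R b a x y}.ncard ≤ 3 ∧
          (∀ x ∈ L b, {a | G.Adj b a ∧ ∃ y ∈ L a, R b a x y}.ncard ≤ 2) ∧
          ∀ x ∈ L b, ∀ x' ∈ L b, 2 ≤ {a | G.Adj b a ∧ ∃ y ∈ L a, R b a x y}.ncard →
            2 ≤ {a | G.Adj b a ∧ ∃ y ∈ L a, R b a x' y}.ncard → x = x') →
        (∃ c : Fin 3 → Fin n → ℕ, (∀ t v, c t v ∈ L v) ∧
          (∀ t u v, G.Adj u v → ¬ R u v (c t u) (c t v)) ∧ ∀ v s t, s ≠ t → c s v ≠ c t v) ∧
        ∃ (S : Finset (Fin n → ℕ)) (w : (Fin n → ℕ) → ℝ),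
          (∀ c ∈ S, 0 ≤ w c ∧ (∀ v, c v ∈ L v) ∧ ∀ u v, G.Adj u v → ¬ R u v (c u) (c v)) ∧
          ∑ c ∈ S, w c = 1 ∧
          ∀ v, ∀ x ∈ L v, ∑ c ∈ S.filter (fun c => c v = x), w c = 1 / 3 := by
  intro n G side rk hside hrk hmid R hRs hR L hL hF
  obtain ⟨c, h1, h2, h3⟩ := Pool.Agent.Helper83.FC.exists_integral G R L hrk hside hRs hR hL
    (fun b hb => hF b hb) (fun a ha => hmid a ha)
  exact ⟨⟨c, h1, h2, h3⟩, Pool.Agent.Helper83.FC.fractional G R L hL h1 h2 h3⟩

end Pool.Agent.Results.MP_efd802_co.FewConflicts
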