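import Mathlib
import Pool.Agent.Helper12.LP.Labels
import Pool.Agent.Helper12.LP.Sparse

set_option autoImplicit false

namespace Pool.Agent.Results.MP_efd802_co.FourLists

/-- Let `G` be a graph in which every set `S` of at least two vertices spans at most `2 |S| - 3`
edges (by Euler's formula this holds for every planar bipartite graph, indeed for every
triangle-free planar graph). Then every assignment of lists of four colours has a list packing:
four proper list colourings, pairwise different at every vertex. In particular it has a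
fractional packing. -/
theorem result :
    ∀ (n : ℕ) (G : SimpleGraph (Fin n)),
      (∀ S : Finset (Fin n), 2 ≤ S.card →
        {e : Sym2 (Fin n) | e ∈ G.edgeSet ∧ ∀ x ∈ e, x ∈ S}.ncard + 3 ≤ 2 * S.card) →
      ∀ L : Fin n → Finset ℕ, (∀ v, (L v).card = 4) →
        (∃ c : Fin 4 → Fin n → ℕ,
          (∀ i v, c i v ∈ L v) ∧
          (∀ i u v, G.Adj u v → c i u ≠ c i v) ∧
          (∀ v i j, c i v = c j v → i = j)) ∧
        ∃ (S : Finset (Fin n → ℕ)) (w : (Fin n → ℕ) → ℝ),
          (∀ c ∈ S, 0 ≤ w c ∧ (∀ v, c v ∈ L v) ∧ ∀ u v, G.Adj u v → c u ≠ c v) ∧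
          ∑ c ∈ S, w c = 1 ∧
          ∀ v, ∀ x ∈ L v, ∑ c ∈ S.filter (fun c => c v = x), w c = 1 / 4 := by
  intro n G hG L hL
  obtain ⟨F₁, F₂, hF₁, hF₂, hsup⟩ := Pool.Agent.Helper12.LP.two_forests G hG
  obtain ⟨c, hc1, hc2, hc3⟩ := Pool.Agent.Helper12.LP.exists_packing
    (fun (_ _ : Fin n) (x y : ℕ) => x = y) (fun _ _ _ _ h => h.symm)
    (fun _ _ _ _ _ h h' => h.symm.trans h') 2 (fun t => if t = 0 then F₁ else F₂)
    (fun t => by split_ifs <;> assumption) L (by simpa using hL)
  have hc4 : ∀ i u v, G.Adj u v → c i u ≠ c i v := by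
    intro i u v huv
    rw [hsup] at huv
    rcases huv with h | h
    · exact hc3 0 i u v (by simpa using h)
    · exact hc3 1 i u v (by simpa using h)
  have h4 : (2 : ℕ) ^ 2 = 4 := by norm_num
  have main : ∃ c : Fin 4 → Fin n → ℕ, (∀ i v, c i v ∈ L v) ∧
      (∀ i u v, G.Adj u v → c i u ≠ c i v) ∧ (∀ v i j, c i v = c j v → i = j) :=
    ⟨fun i => c (Fin.cast h4.symm i), fun i v => hc1 _ v, fun i u v h => hc4 _ u v h,
      fun v i j h => by
        have := hc2 v h
        simpa using this⟩
  refine ⟨main, ?_⟩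
  obtain ⟨c, hc1, hc2, hc3⟩ := main
  classical
  -- the uniform distribution on the four colourings
  refine ⟨Finset.univ.image c, fun f => (((Finset.univ.filter (fun i => c i = f)).card : ℝ)) / 4,
    ?_, ?_, ?_⟩
  · intro f hf
    obtain ⟨i, _, rfl⟩ := Finset.mem_image.mp hf
    exact ⟨by positivity, hc1 i, hc2 i⟩
  · rw [← Finset.sum_div, ← Nat.cast_sum, ← Finset.card_eq_sum_card_image]
    simp
  · intro v x hx
    have hbij : ∃! i, c i v = x := by
      have hinj : Function.Injective (fun i => (⟨c i v, hc1 i v⟩ : {x // x ∈ L v})) := by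
        intro i j hij
        exact hc3 v i j (congrArg Subtype.val hij)
      have hsurj := ((Fintype.bijective_iff_injective_and_card _).mpr
        ⟨hinj, by simp [hL v]⟩).2
      obtain ⟨i, hi⟩ := hsurj ⟨x, hx⟩
      have hi' : c i v = x := congrArg Subtype.val hi
      exact ⟨i, hi', fun j hj => hc3 v j i (by rw [hj, hi'])⟩
    obtain ⟨i, hi, huniq⟩ := hbij
    rw [← Finset.sum_div, ← Nat.cast_sum]
    have h1 : ∑ f ∈ (Finset.univ.image c).filter (fun f => f v = x),
        (Finset.univ.filter (fun j => c j = f)).card = 1 := by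
      rw [← Finset.card_biUnion]
      · rw [Finset.card_eq_one]
        refine ⟨i, ?_⟩
        ext j
        simp only [Finset.mem_biUnion, Finset.mem_filter, Finset.mem_image, Finset.mem_univ,
          true_and, Finset.mem_singleton]
        constructor
        · rintro ⟨f, ⟨_, hf⟩, rfl⟩
          exact huniq j hf
        · rintro rfl
          exact ⟨c j, ⟨⟨j, rfl⟩, hi⟩, rfl⟩
      · intro f _ g _ hfg
        rw [Function.onFun, Finset.disjoint_left]
        intro j hj hj'
        simp only [Finset.mem_filter, Finset.mem_univ, true_and] at hj hj'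
        exact hfg (hj.symm.trans hj')
    rw [h1]
    norm_num

end Pool.Agent.Results.MP_efd802_co.FourLists
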