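import Mathlib
import Pool.Agent.Helper12.LP.Ordered
import Pool.Agent.Helper12.LP.Stacked

set_option autoImplicit false

namespace Pool.Agent.Results.MP_efd802_co.StackedThree

/-- Let the graph `H` have a vertex order (given by the injective rank function `r`) such that every
vertex `v` has at most two earlier neighbours and, whenever it has two of them, `w` before `w'`,
then `w'` has at most one earlier neighbour or all earlier neighbours of `w'` are adjacent to `w`.
Then for every subgraph `G` of `H` on the same vertices, every assignment of lists of three colours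
has a fractional packing. The hypothesis holds for all quadrangulations of the sphere that are built
from a 4-cycle by inserting vertices of degree two in faces (`Stacked.exists_order` in
`Pool.Agent.Helper12.LP.Stacked`), that is, for all 2-degenerate planar quadrangulations. -/
theorem result :
    ∀ (n : ℕ) (G H : SimpleGraph (Fin n)) (r : Fin n → ℕ), G ≤ H → Function.Injective r →
      (∀ v, {u | H.Adj v u ∧ r u < r v}.ncard ≤ 2) →
      (∀ v w w', H.Adj v w → H.Adj v w' → r w < r w' → r w' < r v →
        {u | H.Adj w' u ∧ r u < r w'}.ncard ≤ 1 ∨ ∀ u, H.Adj w' u → r u < r w' → H.Adj w u) →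
      ∀ L : Fin n → Finset ℕ, (∀ v, (L v).card = 3) →
        ∃ (S : Finset (Fin n → ℕ)) (w : (Fin n → ℕ) → ℝ),
          (∀ c ∈ S, 0 ≤ w c ∧ (∀ v, c v ∈ L v) ∧ ∀ u v, G.Adj u v → c u ≠ c v) ∧
          ∑ c ∈ S, w c = 1 ∧
          ∀ v, ∀ x ∈ L v, ∑ c ∈ S.filter (fun c => c v = x), w c = 1 / 3 := by
  intro n G H r hGH hr h2 hg L hL
  exact Pool.Agent.Helper12.LP3.exists_packing G H hGH r hr h2 hg L hL

end Pool.Agent.Results.MP_efd802_co.StackedThree
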