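import Mathlib
import Pool.Agent.Helper12.QD.Final
import Pool.Agent.Helper12.QD.Grid

set_option autoImplicit false

namespace Pool.Agent.Results.MP_efd802_co.ThreeQuadrants

/-- Let the vertices of the finite graph `G` be distributed in layers (`ℓ v` is the layer of `v`).
* Layer `0`: the vertices have real coordinates `x v`, `t v`; adjacent vertices of layer `0` differ
  in both coordinates; and if two different neighbours of a vertex `v` (all three in layer `0`) lie
  in the same open quadrant at `v`, then this is the upper right quadrant. So `v` has at most one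
  neighbour in each of the three other quadrants and any number in the upper right one.
* Layer `j ≥ 1` induces a forest, and every vertex has at most one neighbour in lower layers.

Then every assignment `L` of lists of three colours and every system `R` of matchings, perfect or not,
between the lists of vertices (`R u v a b` : colour `a` at `u` is in conflict with colour `b` at `v`)
has a fractional packing: a probability distribution on colourings from the lists without conflict
along the edges, with all marginals uniform. For `R u v a b := a = b` these are the proper list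
colourings. Finite subgraphs of the square grid satisfy the hypothesis with all vertices in layer
`0` (`Pool.Agent.Helper12.QD.grid_packing`). -/
theorem result :
    ∀ (n : ℕ) (G : SimpleGraph (Fin n)) (x t : Fin n → ℝ) (ℓ : Fin n → ℕ),
      (∀ u v, G.Adj u v → ℓ u = 0 → ℓ v = 0 → x u ≠ x v ∧ t u ≠ t v) →
      (∀ v a b, G.Adj v a → G.Adj v b → a ≠ b → ℓ v = 0 → ℓ a = 0 → ℓ b = 0 →
        (x a < x v ↔ x b < x v) → (t a < t v ↔ t b < t v) → x v < x a ∧ t v < t a) →
      (∀ j, 1 ≤ j → (G.induce {v | ℓ v = j}).IsAcyclic) →
      (∀ v a b, G.Adj v a → G.Adj v b → ℓ a < ℓ v → ℓ b < ℓ v → a = b) →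
      ∀ R : Fin n → Fin n → ℕ → ℕ → Prop, (∀ u v a b, R u v a b → R v u b a) →
        (∀ u v a b b', R u v a b → R u v a b' → b = b') →
      ∀ L : Fin n → Finset ℕ, (∀ v, (L v).card = 3) →
        ∃ (S : Finset (Fin n → ℕ)) (w : (Fin n → ℕ) → ℝ),
          (∀ c ∈ S, 0 ≤ w c ∧ (∀ v, c v ∈ L v) ∧ ∀ u v, G.Adj u v → ¬ R u v (c u) (c v)) ∧
          ∑ c ∈ S, w c = 1 ∧
          ∀ v, ∀ y ∈ L v, ∑ c ∈ S.filter (fun c => c v = y), w c = 1 / 3 := by
  intro n G x t ℓ hne hq hf h1 R hRs hR L hL
  exact Pool.Agent.Helper12.QD.exists_packing G x t ℓ hne hq hf h1 R hRs hR L hL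

end Pool.Agent.Results.MP_efd802_co.ThreeQuadrants
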